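import Mathlib
import Pool.Agent.Lib.MP_a150d7_gt.LCDefs

namespace Pool.Agent.Lib.RScal

open Finset

variable {𝔤 : Type*} [LieRing 𝔤] [LieAlgebra ℝ 𝔤]

/-- `e 0, …, e (m-1)` is a `g`-orthonormal frame of `𝔤`. -/
structure Frame (g : 𝔤 →ₗ[ℝ] 𝔤 →ₗ[ℝ] ℝ) (m : ℕ) (e : ℕ → 𝔤) : Prop where
  on : ∀ i ∈ range m, ∀ j ∈ range m, g (e i) (e j) = if i = j then 1 else 0
  expand : ∀ x, x = ∑ i ∈ range m, g x (e i) • e i

variable {g : 𝔤 →ₗ[ℝ] 𝔤 →ₗ[ℝ] ℝ} {m : ℕ} {e : ℕ → 𝔤}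

theorem Frame.lin (hf : Frame g m e) (φ : 𝔤 →ₗ[ℝ] ℝ) (x : 𝔤) :
    φ x = ∑ i ∈ range m, g x (e i) * φ (e i) := by
  conv_lhs => rw [hf.expand x]
  simp [map_sum]

theorem Frame.parseval (hf : Frame g m e) (hs : ∀ x y, g x y = g y x) (x y : 𝔤) :
    g x y = ∑ i ∈ range m, g x (e i) * g y (e i) := by
  rw [hs x y, hf.lin (g y) x]

/-- change of the frame by an isometry `J` with `J² = -1`. -/
theorem Frame.sum_J (hf : Frame g m e) (hs : ∀ x y, g x y = g y x) (J : 𝔤 →ₗ[ℝ] 𝔤)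
    (hJ : ∀ x, J (J x) = -x) (hi : ∀ x y, g (J x) (J y) = g x y) (Φ : 𝔤 →ₗ[ℝ] 𝔤 →ₗ[ℝ] ℝ) :
    ∑ i ∈ range m, Φ (J (e i)) (J (e i)) = ∑ i ∈ range m, Φ (e i) (e i) := by
  have hJs : ∀ x y, g (J x) y = - g x (J y) := by
    intro x y
    have := hi x (J y)
    rw [hJ] at this
    simp only [map_neg] at this
    linarith
  have h1 : ∀ i, Φ (J (e i)) (J (e i)) =
      ∑ j ∈ range m, ∑ k ∈ range m, (g (e i) (J (e j)) * g (e i) (J (e k))) * Φ (e j) (e k) := by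
    intro i
    have a := hf.lin (Φ.flip (J (e i))) (J (e i))
    simp only [LinearMap.flip_apply] at a
    rw [a]
    refine Finset.sum_congr rfl fun j _ => ?_
    rw [hf.lin (Φ (e j)) (J (e i)), Finset.mul_sum]
    refine Finset.sum_congr rfl fun k _ => ?_
    rw [hJs, hJs]
    ring
  rw [Finset.sum_congr rfl fun i _ => h1 i, Finset.sum_comm]
  refine Finset.sum_congr rfl fun j hj => ?_
  rw [Finset.sum_comm]
  have h2 : ∀ k ∈ range m, ∑ i ∈ range m, (g (e i) (J (e j)) * g (e i) (J (e k))) * Φ (e j) (e k) =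
      (if j = k then 1 else 0) * Φ (e j) (e k) := by
    intro k hk
    rw [← Finset.sum_mul]
    congr 1
    have := hf.parseval hs (J (e j)) (J (e k))
    rw [hi, hf.on j hj k hk] at this
    rw [this]
    refine Finset.sum_congr rfl fun i _ => ?_
    rw [hs (e i), hs (e i)]
  rw [Finset.sum_congr rfl h2]
  simp [hj]

/-- infinitesimal invariance of the frame sum under a skew endomorphism. -/
theorem Frame.sum_skew (hf : Frame g m e) (hs : ∀ x y, g x y = g y x) (A : 𝔤 →ₗ[ℝ] 𝔤)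
    (hA : ∀ x y, g (A x) y + g x (A y) = 0) (Φ : 𝔤 →ₗ[ℝ] 𝔤 →ₗ[ℝ] ℝ) :
    ∑ i ∈ range m, (Φ (A (e i)) (e i) + Φ (e i) (A (e i))) = 0 := by
  have h1 : ∑ i ∈ range m, Φ (A (e i)) (e i) =
      ∑ i ∈ range m, ∑ j ∈ range m, g (A (e i)) (e j) * Φ (e j) (e i) := by
    refine Finset.sum_congr rfl fun i _ => ?_
    have a := hf.lin (Φ.flip (e i)) (A (e i))
    simpa only [LinearMap.flip_apply] using a
  have h2 : ∑ i ∈ range m, Φ (e i) (A (e i)) =
      ∑ i ∈ range m, ∑ j ∈ range m, g (A (e i)) (e j) * Φ (e i) (e j) := by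
    refine Finset.sum_congr rfl fun i _ => ?_
    exact hf.lin (Φ (e i)) (A (e i))
  rw [Finset.sum_add_distrib, h1, h2]
  rw [Finset.sum_comm, ← Finset.sum_add_distrib]
  refine Finset.sum_eq_zero fun i _ => ?_
  rw [← Finset.sum_add_distrib]
  refine Finset.sum_eq_zero fun j _ => ?_
  have := hA (e j) (e i)
  rw [hs (e j)] at this
  have h3 : g (A (e j)) (e i) = - g (A (e i)) (e j) := by linarith
  rw [h3]
  ring

end Pool.Agent.Lib.RScal
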