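import Pool.Agent.Lib.RScal.Curv

namespace Pool.Agent.Lib.RScal

open Finset Module Pool.Agent.Lib.MP_a150d7_gt

/-- `𝔤` has a nonzero ideal `𝔞` with an inner product (the restriction of `b`) for which all
`ad w`, `w ∈ 𝔤`, are skew on `𝔞`. -/
def HasCompactIdeal (𝔤 : Type*) [LieRing 𝔤] [LieAlgebra ℝ 𝔤] : Prop :=
  ∃ (𝔞 : LieIdeal ℝ 𝔤) (b : 𝔤 →ₗ[ℝ] 𝔤 →ₗ[ℝ] ℝ), 𝔞 ≠ ⊥ ∧ (∀ x y, b x y = b y x) ∧
    (∀ x ∈ 𝔞, x ≠ 0 → 0 < b x x) ∧ ∀ w : 𝔤, ∀ x ∈ 𝔞, ∀ y ∈ 𝔞, b ⁅w, x⁆ y + b x ⁅w, y⁆ = 0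

theorem cont_quad {n : ℕ} (B : (Fin n → ℝ) →ₗ[ℝ] (Fin n → ℝ) →ₗ[ℝ] ℝ) :
    Continuous fun x => B x x := by
  have h : ∀ x, B x x = ∑ i, x i * B (fun j => if i = j then 1 else 0) x := by
    intro x
    conv_lhs => rw [LinearMap.pi_apply_eq_sum_univ B x]
    simp [LinearMap.sum_apply]
  simp only [h]
  refine continuous_finsetSum _ fun i _ => ?_
  exact (continuous_apply i).mul (LinearMap.continuous_of_finiteDimensional _)

/-- a maximiser of the quotient of two quadratic forms -/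
theorem exists_max {V : Type*} [AddCommGroup V] [Module ℝ V] [FiniteDimensional ℝ V]
    [Nontrivial V] (g b : V →ₗ[ℝ] V →ₗ[ℝ] ℝ) (hb : ∀ x, x ≠ 0 → 0 < b x x) :
    ∃ y, y ≠ 0 ∧ ∃ μ : ℝ, (∀ x, g x x ≤ μ * b x x) ∧ g y y = μ * b y y := by
  set n := finrank ℝ V with hn
  have hn0 : 0 < n := finrank_pos
  let φ : (Fin n → ℝ) ≃ₗ[ℝ] V := (finBasis ℝ V).equivFun.symm
  have : Nonempty (Fin n) := ⟨⟨0, hn0⟩⟩
  let G : (Fin n → ℝ) →ₗ[ℝ] (Fin n → ℝ) →ₗ[ℝ] ℝ := g.compl₁₂ φ.toLinearMap φ.toLinearMap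
  let B : (Fin n → ℝ) →ₗ[ℝ] (Fin n → ℝ) →ₗ[ℝ] ℝ := b.compl₁₂ φ.toLinearMap φ.toLinearMap
  have hG : ∀ x, G x x = g (φ x) (φ x) := fun x => rfl
  have hB : ∀ x, B x x = b (φ x) (φ x) := fun x => rfl
  have hBpos : ∀ x, x ≠ 0 → 0 < B x x := by
    intro x hx
    rw [hB]
    exact hb _ (by simpa using hx)
  have hc : ContinuousOn (fun x => G x x / B x x) (Metric.sphere (0 : Fin n → ℝ) 1) := by
    refine (cont_quad G).continuousOn.div (cont_quad B).continuousOn fun x hx => ?_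
    have hx0 : x ≠ 0 := by
      rintro rfl
      simp at hx
    exact (hBpos x hx0).ne'
  have hne : (Metric.sphere (0 : Fin n → ℝ) 1).Nonempty := by
    exact NormedSpace.sphere_nonempty.mpr zero_le_one
  obtain ⟨x0, hx0, hmax⟩ := (isCompact_sphere (0 : Fin n → ℝ) 1).exists_isMaxOn hne hc
  have hx00 : x0 ≠ 0 := by
    rintro rfl
    simp at hx0
  refine ⟨φ x0, by simpa using hx00, G x0 x0 / B x0 x0, ?_, ?_⟩
  · intro v
    obtain ⟨x, rfl⟩ := φ.surjective v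
    rw [← hG, ← hB]
    by_cases hx : x = 0
    · subst hx; simp
    · have hnx : 0 < ‖x‖ := norm_pos_iff.mpr hx
      have hs : ‖x‖⁻¹ • x ∈ Metric.sphere (0 : Fin n → ℝ) 1 := by
        simp [norm_smul, hnx.ne']
      have h1 : G (‖x‖⁻¹ • x) (‖x‖⁻¹ • x) / B (‖x‖⁻¹ • x) (‖x‖⁻¹ • x) ≤ G x0 x0 / B x0 x0 :=
        hmax hs
      have h2 : G (‖x‖⁻¹ • x) (‖x‖⁻¹ • x) / B (‖x‖⁻¹ • x) (‖x‖⁻¹ • x) = G x x / B x x := by
        simp only [map_smul, LinearMap.smul_apply, smul_eq_mul]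
        have := (hBpos x hx).ne'
        field_simp
      rw [h2] at h1
      exact (div_le_iff₀ (hBpos x hx)).mp h1
  · rw [← hG, ← hB]
    have := (hBpos x0 hx00).ne'
    field_simp

theorem lin_zero {p q : ℝ} (h : ∀ t : ℝ, 0 ≤ 2 * t * p + t ^ 2 * q) : p = 0 := by
  by_contra hp
  have h1 := h (-p / (|q| + 1))
  have hq : 0 < |q| + 1 := by positivity
  have h2 : 2 * (-p / (|q| + 1)) * p + (-p / (|q| + 1)) ^ 2 * q =
      (p ^ 2 / (|q| + 1) ^ 2) * (q - 2 * (|q| + 1)) := by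
    field_simp
    ring
  rw [h2] at h1
  have h3 : 0 < p ^ 2 / (|q| + 1) ^ 2 := by positivity
  have h4 : q - 2 * (|q| + 1) < 0 := by
    have := le_abs_self q
    have := abs_nonneg q
    linarith
  exact absurd h1 (not_le.mpr (mul_neg_of_pos_of_neg h3 h4))

variable {𝔤 : Type*} [LieRing 𝔤] [LieAlgebra ℝ 𝔤]
variable {g : 𝔤 →ₗ[ℝ] 𝔤 →ₗ[ℝ] ℝ} {J : 𝔤 →ₗ[ℝ] 𝔤} {D : 𝔤 →ₗ[ℝ] 𝔤 →ₗ[ℝ] 𝔤}

theorem sec_identity (hs : ∀ x y, g x y = g y x) (hD : IsLeviCivita g D) (v y : 𝔤) :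
    g (curv D v y y) v = g (D y v) (D y v) - g ⁅v, y⁆ ⁅v, y⁆ - g ⁅v, ⁅v, y⁆⁆ y
      - g ⁅D v v, y⁆ y := by
  unfold curv
  simp only [map_sub, LinearMap.sub_apply]
  have a1 := hD.metric v (D y y) v
  have a2 := hD.metric y (D v y) v
  have a3 : g (D ⁅v, y⁆ y) v = g (D y ⁅v, y⁆) v + g ⁅⁅v, y⁆, y⁆ v := by
    rw [← LinearMap.add_apply, ← map_add, ← lc_sub hD ⁅v, y⁆ y]
    congr 2
    abel
  have a4 := hD.metric y ⁅v, y⁆ v
  have a5 := koszul hs hD y v ⁅v, y⁆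
  have a6 : g (D v y) (D y v) = g (D y v) (D y v) + g ⁅v, y⁆ (D y v) := by
    rw [← LinearMap.add_apply, ← map_add, ← lc_sub hD v y]
    congr 2
    abel
  have a7 : g (D y y) (D v v) = g ⁅D v v, y⁆ y := by
    have b1 := hD.metric y y (D v v)
    have b2 := hD.metric (D v v) y y
    have b3 : g ⁅D v v, y⁆ y = g (D (D v v) y) y - g (D y (D v v)) y := by
      rw [← lc_sub hD (D v v) y, map_sub, LinearMap.sub_apply]
    rw [hs y (D (D v v) y)] at b2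
    rw [hs y (D y (D v v))] at b1
    linarith
  rw [← lie_skew y v, map_neg, LinearMap.neg_apply] at a5
  rw [hs (D y v) ⁅v, y⁆] at a5
  rw [hs (D y y) (D v v)] at a1 a7
  rw [hs (D v v) (D y y)] at a1 a7
  linarith

theorem c_nonneg [FiniteDimensional ℝ 𝔤] (hH : IsHermitianStructure g J)
    (hD : IsLeviCivita g D) (c : ℝ)
    (hc : ∀ x, x ≠ 0 → g (curv D x (J x) (J x)) x = c * (g x x) ^ 2)
    (hI : HasCompactIdeal 𝔤) : 0 ≤ c := by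
  obtain ⟨𝔞, b, hne, hbs, hbp, hbi⟩ := hI
  have : Nontrivial 𝔞.toSubmodule := by
    rw [Submodule.nontrivial_iff_ne_bot]
    intro h
    apply hne
    exact (LieSubmodule.toSubmodule_eq_bot 𝔞).mp h
  let g' : 𝔞.toSubmodule →ₗ[ℝ] 𝔞.toSubmodule →ₗ[ℝ] ℝ :=
    g.compl₁₂ 𝔞.toSubmodule.subtype 𝔞.toSubmodule.subtype
  let b' : 𝔞.toSubmodule →ₗ[ℝ] 𝔞.toSubmodule →ₗ[ℝ] ℝ :=
    b.compl₁₂ 𝔞.toSubmodule.subtype 𝔞.toSubmodule.subtype
  obtain ⟨y', hy0', μ, hmax', heq'⟩ := exists_max g' b' (fun x hx => hbp x x.2 (by simpa using hx))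
  set y : 𝔤 := (y' : 𝔤) with hy
  have hya : y ∈ 𝔞 := y'.2
  have hy0 : y ≠ 0 := by simpa [hy] using hy0'
  have hmax : ∀ x ∈ 𝔞, g x x ≤ μ * b x x := fun x hx => hmax' ⟨x, hx⟩
  have heq : g y y = μ * b y y := heq'
  have hlin : ∀ x ∈ 𝔞, g y x = μ * b y x := by
    intro x hx
    have h1 : ∀ t : ℝ, 0 ≤ 2 * t * (μ * b y x - g y x) + t ^ 2 * (μ * b x x - g x x) := by
      intro t
      have h2 := hmax (y + t • x) (𝔞.add_mem hya (𝔞.smul_mem t hx))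
      simp only [map_add, map_smul, LinearMap.add_apply, LinearMap.smul_apply, smul_eq_mul] at h2
      rw [hbs x y, hH.symm x y] at h2
      nlinarith
    have := lin_zero h1
    linarith
  have hbr : ∀ w : 𝔤, ∀ x ∈ 𝔞, ⁅w, x⁆ ∈ 𝔞 := fun w x hx => lie_mem_right ℝ 𝔤 𝔞 w x hx
  have hcrit : ∀ w : 𝔤, g ⁅w, y⁆ y = 0 := by
    intro w
    have h1 := hbi w y hya y hya
    rw [hbs ⁅w, y⁆ y] at h1
    rw [hH.symm, hlin _ (hbr w y hya)]
    have : b y ⁅w, y⁆ = 0 := by linarith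
    rw [this, mul_zero]
  have hid := sec_identity hH.symm hD (J y) y
  rw [hcrit] at hid
  set u := ⁅J y, y⁆ with hu
  have hua : u ∈ 𝔞 := hbr _ _ hya
  have h1 : g ⁅J y, u⁆ y = -(μ * b u u) := by
    rw [hH.symm, hlin _ (hbr _ _ hua)]
    have := hbi (J y) y hya u hua
    rw [← hu] at this
    have h2 : b y ⁅J y, u⁆ = - b u u := by linarith
    rw [h2]; ring
  have h2 := hmax u hua
  have h3 : 0 ≤ g (D y (J y)) (D y (J y)) := by
    by_cases h : D y (J y) = 0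
    · rw [h]; simp
    · exact (hH.pos _ h).le
  have h4 := hc y hy0
  rw [curv_skew hH.symm hD, curv_swap, map_neg, LinearMap.neg_apply, neg_neg] at h4
  have h5 : 0 ≤ c * (g y y) ^ 2 := by
    rw [← h4, hid, h1]
    linarith
  have h6 : 0 < (g y y) ^ 2 := by
    have := hH.pos y hy0
    positivity
  by_contra hneg
  have := mul_neg_of_neg_of_pos (not_le.mp hneg) h6
  linarith

end Pool.Agent.Lib.RScal
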