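import Pool.Agent.Lib.RScal.Base

namespace Pool.Agent.Lib.RScal

open Finset Pool.Agent.Lib.MP_a150d7_gt

variable {𝔤 : Type*} [LieRing 𝔤] [LieAlgebra ℝ 𝔤]
variable {g : 𝔤 →ₗ[ℝ] 𝔤 →ₗ[ℝ] ℝ} {J : 𝔤 →ₗ[ℝ] 𝔤} {D : 𝔤 →ₗ[ℝ] 𝔤 →ₗ[ℝ] 𝔤}

theorem lc_sub (hD : IsLeviCivita g D) (x y : 𝔤) : D x y - D y x = ⁅x, y⁆ := by
  have := hD.torsion_free x y
  unfold torsion at this
  exact sub_eq_zero.mp this

/-- Koszul's formula -/
theorem koszul (hs : ∀ x y, g x y = g y x) (hD : IsLeviCivita g D) (x y z : 𝔤) :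
    2 * g (D x y) z = g ⁅x, y⁆ z - g ⁅y, z⁆ x + g ⁅z, x⁆ y := by
  rw [← lc_sub hD x y, ← lc_sub hD y z, ← lc_sub hD z x]
  simp only [map_sub, LinearMap.sub_apply]
  have m1 := hD.metric x y z
  have m2 := hD.metric y z x
  have m3 := hD.metric z x y
  rw [hs y (D x z)] at m1
  rw [hs z (D y x)] at m2
  rw [hs x (D z y)] at m3
  linarith

theorem curv_swap (x y z : 𝔤) : curv D x y z = -curv D y x z := by
  unfold curv
  rw [← lie_skew x y]
  simp only [map_neg, LinearMap.neg_apply]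
  abel

theorem curv_self (x z : 𝔤) : curv D x x z = 0 := by
  unfold curv
  simp

theorem curv_skew (hs : ∀ x y, g x y = g y x) (hD : IsLeviCivita g D) (x y z w : 𝔤) :
    g (curv D x y z) w = -g (curv D x y w) z := by
  unfold curv
  simp only [map_sub, LinearMap.sub_apply]
  have m1 := hD.metric x (D y z) w
  have m2 := hD.metric y z (D x w)
  have m3 := hD.metric y (D x z) w
  have m4 := hD.metric x z (D y w)
  have m5 := hD.metric ⁅x, y⁆ z w
  rw [hs z (D y (D x w))] at m2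
  rw [hs z (D x (D y w))] at m4
  rw [hs z (D ⁅x, y⁆ w)] at m5
  linarith

theorem bianchi (hD : IsLeviCivita g D) (x y z : 𝔤) :
    curv D x y z + curv D y z x + curv D z x y = 0 := by
  unfold curv
  have j := lie_jacobi x y z
  have a1 : D x (D y z) - D x (D z y) = D x ⁅y, z⁆ := by rw [← map_sub, lc_sub hD]
  have a2 : D y (D z x) - D y (D x z) = D y ⁅z, x⁆ := by rw [← map_sub, lc_sub hD]
  have a3 : D z (D x y) - D z (D y x) = D z ⁅x, y⁆ := by rw [← map_sub, lc_sub hD]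
  have b1 := lc_sub hD x ⁅y, z⁆
  have b2 := lc_sub hD y ⁅z, x⁆
  have b3 := lc_sub hD z ⁅x, y⁆
  have : D x (D y z) - D y (D x z) - D ⁅x, y⁆ z +
      (D y (D z x) - D z (D y x) - D ⁅y, z⁆ x) + (D z (D x y) - D x (D z y) - D ⁅z, x⁆ y) =
      (D x (D y z) - D x (D z y) - D ⁅y, z⁆ x) + (D y (D z x) - D y (D x z) - D ⁅z, x⁆ y)
      + (D z (D x y) - D z (D y x) - D ⁅x, y⁆ z) := by abel
  rw [this, a1, a2, a3, b1, b2, b3, j]

/-- `K x = [D x, J]`, the covariant derivative of `J`. -/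
def Kd (J : 𝔤 →ₗ[ℝ] 𝔤) (D : 𝔤 →ₗ[ℝ] 𝔤 →ₗ[ℝ] 𝔤) : 𝔤 →ₗ[ℝ] 𝔤 →ₗ[ℝ] 𝔤 :=
  (LinearMap.lcomp ℝ 𝔤 J ∘ₗ D) - D.compr₂ J

theorem Kd_apply (x y : 𝔤) : Kd J D x y = D x (J y) - J (D x y) := by
  simp [Kd]

theorem J_skew (hH : IsHermitianStructure g J) (x y : 𝔤) : g (J x) y = -g x (J y) := by
  have := hH.invariant x (J y)
  rw [hH.sq_J] at this
  simp only [map_neg] at this
  linarith

theorem Kd_J (hH : IsHermitianStructure g J) (x y : 𝔤) : Kd J D x (J y) = -J (Kd J D x y) := by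
  simp only [Kd_apply, hH.sq_J, map_sub, map_neg]
  abel

theorem Kd_skew (hH : IsHermitianStructure g J) (hD : IsLeviCivita g D) (x y z : 𝔤) :
    g (Kd J D x y) z = -g y (Kd J D x z) := by
  simp only [Kd_apply, map_sub, LinearMap.sub_apply]
  have m1 := hD.metric x (J y) z
  have m2 := J_skew hH (D x y) z
  have m3 := hD.metric x y (J z)
  have m4 := J_skew hH y (D x z)
  linarith

/-- integrability: `K (J x) = J (K x)` -/
theorem Kd_Jx (hH : IsHermitianStructure g J) (hD : IsLeviCivita g D) (x y : 𝔤) :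
    Kd J D (J x) y = J (Kd J D x y) := by
  have hE : ∀ x y, Kd J D (J x) y - J (Kd J D x y) = Kd J D (J y) x - J (Kd J D y x) := by
    intro x y
    have hN := hH.integrable x y
    rw [← lc_sub hD x y, ← lc_sub hD (J x) (J y), ← lc_sub hD (J x) y, ← lc_sub hD x (J y)] at hN
    simp only [Kd_apply, map_sub, hH.sq_J] at hN ⊢
    rw [← sub_eq_zero]
    rw [← neg_eq_zero] at hN
    rw [← hN]
    abel
  have hS : ∀ x y z, g (Kd J D (J x) y - J (Kd J D x y)) z =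
      -g (Kd J D (J x) z - J (Kd J D x z)) y := by
    intro x y z
    simp only [map_sub, LinearMap.sub_apply]
    rw [Kd_skew hH hD (J x) y z, J_skew hH (Kd J D x y) z, Kd_skew hH hD x y (J z),
      Kd_J hH, hH.symm y (Kd J D (J x) z)]
    rw [map_neg, hH.symm y (J (Kd J D x z))]
    ring
  have h0 : ∀ x y z, g (Kd J D (J x) y - J (Kd J D x y)) z = 0 := by
    intro x y z
    have e1 := hS x y z
    have e2 := hS z x y
    have e3 := hS y z x
    rw [hE z x] at e2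
    rw [hE x z] at e1
    have e4 := hE y z
    rw [e4] at e3
    rw [hE y x] at e3
    -- a = g(E x y) z
    have f1 := hS x y z
    have f2 := hS z x y
    have f3 := hS y z x
    rw [hE x z] at f1
    rw [hE z y] at f2
    rw [hE y x] at f3
    linarith
  have h1 := h0 x y (Kd J D (J x) y - J (Kd J D x y))
  by_contra hne
  have : Kd J D (J x) y - J (Kd J D x y) ≠ 0 := sub_ne_zero.mpr hne
  exact absurd h1 (ne_of_gt (hH.pos _ this))

end Pool.Agent.Lib.RScal
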