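import Pool.Agent.Lib.RScal.Base

namespace Pool.Agent.Lib.RScal

open Finset Module

/-- `𝔤` has a complete flag of subalgebras. -/
def HasCompleteFlag (𝔤 : Type*) [LieRing 𝔤] [LieAlgebra ℝ 𝔤] : Prop :=
  ∃ F : ℕ → LieSubalgebra ℝ 𝔤, F 0 = ⊥ ∧ (∀ k, F k ≤ F (k + 1)) ∧
    (∀ k, finrank ℝ (F (k + 1)) ≤ finrank ℝ (F k) + 1) ∧ ∃ N, F N = ⊤

variable {𝔤 : Type*} [LieRing 𝔤] [LieAlgebra ℝ 𝔤] [FiniteDimensional ℝ 𝔤]

/-- adapted orthonormal basis of a subalgebra -/
structure SubFrame (g : 𝔤 →ₗ[ℝ] 𝔤 →ₗ[ℝ] ℝ) (U : LieSubalgebra ℝ 𝔤) (d : ℕ) (e : ℕ → 𝔤) :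
    Prop where
  on : ∀ i ∈ range d, ∀ j ∈ range d, g (e i) (e j) = if i = j then 1 else 0
  mem : ∀ i ∈ range d, e i ∈ U
  expand : ∀ x ∈ U, x = ∑ i ∈ range d, g x (e i) • e i
  flag : ∀ i j k, i < k → j < k → k < d → g ⁅e i, e j⁆ (e k) = 0

theorem step_frame {g : 𝔤 →ₗ[ℝ] 𝔤 →ₗ[ℝ] ℝ} (hs : ∀ x y, g x y = g y x)
    (hp : ∀ x, x ≠ 0 → 0 < g x x) (U V : LieSubalgebra ℝ 𝔤) (hUV : U ≤ V)
    (hr : finrank ℝ V ≤ finrank ℝ U + 1) (d : ℕ) (e : ℕ → 𝔤) (hf : SubFrame g U d e) :
    ∃ d' e', SubFrame g V d' e' := by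
  by_cases hVU : V ≤ U
  · have : U = V := le_antisymm hUV hVU
    subst this
    exact ⟨d, e, hf⟩
  · obtain ⟨v, hvV, hvU⟩ := SetLike.not_le_iff_exists.mp hVU
    set w := ∑ i ∈ range d, g v (e i) • e i with hw
    have hwU : w ∈ U := by
      rw [hw]
      exact sum_mem fun i hi => U.smul_mem _ (hf.mem i hi)
    set u := v - w with hu
    have huV : u ∈ V := V.sub_mem hvV (hUV hwU)
    have hu0 : u ≠ 0 := by
      intro h
      apply hvU
      have : v = w := sub_eq_zero.mp h
      rw [this]
      exact hwU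
    have hguu := hp u hu0
    have hsq : 0 < Real.sqrt (g u u) := Real.sqrt_pos.mpr hguu
    have horth : ∀ j ∈ range d, g u (e j) = 0 := by
      intro j hj
      rw [hu, hw, map_sub, LinearMap.sub_apply, map_sum, LinearMap.sum_apply]
      have : ∀ i ∈ range d, g (g v (e i) • e i) (e j) = if i = j then g v (e i) else 0 := by
        intro i hi
        rw [map_smul, LinearMap.smul_apply, hf.on i hi j hj, smul_eq_mul]
        split_ifs <;> simp
      rw [Finset.sum_congr rfl this, Finset.sum_ite_eq', if_pos hj, sub_self]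
    set ed := (Real.sqrt (g u u))⁻¹ • u with hed
    have hedV : ed ∈ V := V.smul_mem _ huV
    have hedn : g ed ed = 1 := by
      rw [hed]
      simp only [map_smul, LinearMap.smul_apply, smul_eq_mul]
      have := Real.mul_self_sqrt hguu.le
      field_simp
      nlinarith
    have hedo : ∀ j ∈ range d, g ed (e j) = 0 := by
      intro j hj
      rw [hed, map_smul, LinearMap.smul_apply, horth j hj, smul_zero]
    have hedU : ∀ y ∈ U, g ed y = 0 := by
      intro y hy
      rw [hf.expand y hy, map_sum]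
      refine Finset.sum_eq_zero fun i hi => ?_
      rw [map_smul, hedo i hi, smul_zero]
    have hednU : ed ∉ U := by
      intro h
      have := hedU ed h
      rw [hedn] at this
      exact one_ne_zero this
    -- V = U ⊔ span ed
    have hV : V.toSubmodule = U.toSubmodule ⊔ Submodule.span ℝ {ed} := by
      have hle : U.toSubmodule ⊔ Submodule.span ℝ {ed} ≤ V.toSubmodule := by
        refine sup_le hUV ?_
        rw [Submodule.span_singleton_le_iff_mem]
        exact hedV
      have hlt : U.toSubmodule < U.toSubmodule ⊔ Submodule.span ℝ {ed} := by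
        refine lt_of_le_of_ne le_sup_left fun h => hednU ?_
        have : ed ∈ U.toSubmodule ⊔ Submodule.span ℝ {ed} :=
          Submodule.mem_sup_right (Submodule.mem_span_singleton_self ed)
        rw [← h] at this
        exact this
      have h1 := Submodule.finrank_lt_finrank_of_lt hlt
      symm
      refine Submodule.eq_of_le_of_finrank_le hle ?_
      have h2 : finrank ℝ V.toSubmodule ≤ finrank ℝ U.toSubmodule + 1 := hr
      omega
    set e' : ℕ → 𝔤 := fun i => if i < d then e i else ed with he'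
    have e'lt : ∀ i, i < d → e' i = e i := fun i hi => by simp [he', hi]
    have e'd : e' d = ed := by simp [he']
    refine ⟨d + 1, e', ?_, ?_, ?_, ?_⟩
    · intro i hi j hj
      rw [Finset.mem_range] at hi hj
      rcases Nat.lt_succ_iff_lt_or_eq.mp hi with hi | hi <;>
        rcases Nat.lt_succ_iff_lt_or_eq.mp hj with hj | hj
      · rw [e'lt i hi, e'lt j hj]
        exact hf.on i (Finset.mem_range.mpr hi) j (Finset.mem_range.mpr hj)
      · subst hj
        rw [e'lt i hi, e'd, hs, hedo i (Finset.mem_range.mpr hi), if_neg (by omega)]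
      · subst hi
        rw [e'lt j hj, e'd, hedo j (Finset.mem_range.mpr hj), if_neg (by omega)]
      · subst hi
        subst hj
        rw [e'd, hedn, if_pos rfl]
    · intro i hi
      rw [Finset.mem_range] at hi
      rcases Nat.lt_succ_iff_lt_or_eq.mp hi with hi | hi
      · rw [e'lt i hi]
        exact hUV (hf.mem i (Finset.mem_range.mpr hi))
      · subst hi
        rw [e'd]
        exact hedV
    · intro x hx
      have hx' : x ∈ U.toSubmodule ⊔ Submodule.span ℝ {ed} := by
        rw [← hV]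
        exact hx
      obtain ⟨y, hy, z, hz, rfl⟩ := Submodule.mem_sup.mp hx'
      obtain ⟨t, rfl⟩ := Submodule.mem_span_singleton.mp hz
      have hyU : y ∈ U := hy
      rw [Finset.sum_range_succ, e'd]
      have s1 : ∑ i ∈ range d, g (y + t • ed) (e' i) • e' i = y := by
        conv_rhs => rw [hf.expand y hyU]
        refine Finset.sum_congr rfl fun i hi => ?_
        rw [e'lt i (Finset.mem_range.mp hi), map_add, LinearMap.add_apply, map_smul,
          LinearMap.smul_apply, hedo i hi, smul_zero, add_zero]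
      have s2 : g (y + t • ed) ed = t := by
        have a : g (t • ed) ed = t * g ed ed := by
          rw [LinearMap.map_smul g t ed, LinearMap.smul_apply, smul_eq_mul]
        rw [map_add, LinearMap.add_apply, a, hedn, hs y ed, hedU y hyU]
        ring
      rw [s1, s2]
    · intro i j k hik hjk hk
      rcases Nat.lt_succ_iff_lt_or_eq.mp hk with h | h
      · rw [e'lt i (hik.trans h), e'lt j (hjk.trans h), e'lt k h]
        exact hf.flag i j k hik hjk h
      · subst h
        rw [e'lt i hik, e'lt j hjk, e'd, hs]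
        exact hedU _ (U.lie_mem (hf.mem i (Finset.mem_range.mpr hik))
          (hf.mem j (Finset.mem_range.mpr hjk)))

theorem exists_frame {g : 𝔤 →ₗ[ℝ] 𝔤 →ₗ[ℝ] ℝ} (hs : ∀ x y, g x y = g y x)
    (hp : ∀ x, x ≠ 0 → 0 < g x x) (hF : HasCompleteFlag 𝔤) :
    ∃ m e, Frame g m e ∧ ∀ i j k, i < k → j < k → k < m → g ⁅e i, e j⁆ (e k) = 0 := by
  obtain ⟨F, h0, hle, hr, N, hN⟩ := hF
  have key : ∀ k, ∃ d e, SubFrame g (F k) d e := by
    intro k
    induction k with
    | zero =>
      refine ⟨0, fun _ => 0, ?_, ?_, ?_, ?_⟩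
      · intro i hi; simp at hi
      · intro i hi; simp at hi
      · intro x hx
        rw [h0, LieSubalgebra.mem_bot] at hx
        simp [hx]
      · intro i j k _ _ hk
        simp at hk
    | succ k ih =>
      obtain ⟨d, e, hf⟩ := ih
      exact step_frame hs hp (F k) (F (k + 1)) (hle k) (hr k) d e hf
  obtain ⟨d, e, hf⟩ := key N
  rw [hN] at hf
  exact ⟨d, e, ⟨hf.on, fun x => hf.expand x (LieSubalgebra.mem_top x)⟩, hf.flag⟩

end Pool.Agent.Lib.RScal
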