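import Pool.Agent.Lib.RScal.Mg.G001
import Pool.Agent.Lib.RScal.Compact

namespace Pool.Agent.Lib.RScal

open Finset Pool.Agent.Lib.MP_a150d7_gt

/-- Constant Riemannian holomorphic sectional curvature on a Lie algebra with a complete flag of
subalgebras. -/
theorem rscal_main {𝔤 : Type*} [LieRing 𝔤] [LieAlgebra ℝ 𝔤] [FiniteDimensional ℝ 𝔤]
    [Nontrivial 𝔤] (g : 𝔤 →ₗ[ℝ] 𝔤 →ₗ[ℝ] ℝ) (J : 𝔤 →ₗ[ℝ] 𝔤) (hgJ : IsHermitianStructure g J)
    (hflag : HasCompleteFlag 𝔤) (D : 𝔤 →ₗ[ℝ] 𝔤 →ₗ[ℝ] 𝔤) (hD : IsLeviCivita g D)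
    (c : ℝ) (hc : ∀ x, x ≠ 0 → holSec g J D x = c) :
    c ≤ 0 ∧ (c = 0 → ∀ x y z, curv D x y z = 0) ∧ (HasCompactIdeal 𝔤 → c = 0) := by
  have hc' : ∀ x, x ≠ 0 → g (curv D x (J x) (J x)) x = c * (g x x) ^ 2 := by
    intro x hx
    have h1 := hc x hx
    unfold holSec at h1
    have h2 : (g x x) ^ 2 ≠ 0 := by
      have := hgJ.pos x hx
      positivity
    exact (div_eq_iff h2).mp h1
  have hq : ∀ x, F4 g J D x x x x = c * (g x x) ^ 2 := by
    intro x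
    unfold F4
    rw [curvL_apply]
    by_cases hx : x = 0
    · subst hx
      simp
    · exact hc' x hx
  obtain ⟨m, e, hf, hfl⟩ := exists_frame hgJ.symm hgJ.pos hflag
  have hm : 0 < m := by
    by_contra h
    have hm0 : m = 0 := by omega
    subst hm0
    obtain ⟨x, hx⟩ := exists_ne (0 : 𝔤)
    apply hx
    rw [hf.expand x]
    simp
  have hmain := main_ineq hgJ hD hf hfl c hq
  have hb : 0 ≤ ∑ K ∈ range m, blk (sc g e) K := Finset.sum_nonneg fun K _ => blk_nonneg _ K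
  have hH : 0 ≤ g (Hv D m e) (Hv D m e) := by
    by_cases h : Hv D m e = 0
    · rw [h]; simp
    · exact (hgJ.pos _ h).le
  have hmm : (0 : ℝ) < m * (m + 2) := by
    have : (0 : ℝ) < m := Nat.cast_pos.mpr hm
    positivity
  have hc0 : c ≤ 0 := by
    by_contra h
    have := mul_pos (not_le.mp h) hmm
    linarith
  refine ⟨hc0, ?_, fun hI => le_antisymm hc0 (c_nonneg hgJ hD c hc' hI)⟩
  intro h0 x y z
  rw [h0, zero_mul] at hmain
  have hb0 : ∑ K ∈ range m, blk (sc g e) K ≤ 0 := by linarith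
  exact curv_zero hgJ.symm hD hf hfl (blk_zero hb0) hgJ.pos x y z

end Pool.Agent.Lib.RScal
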