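import Pool.Agent.Lib.RScal.Mg.G001

/-! `flag_of_solvable` is in `Pool/Agent/Lib/RScal/Mg/G001.lean`. -/
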